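import Pool.Agent.helper4.QX.SpecM

set_option autoImplicit false

/-!
# Project QX (MP_07c750), row MRC
-/

open Polynomial
open Pool.Agent.QU Pool.Agent.RP

namespace Pool.Agent.QX

theorem MRC_apply {n : Type} [Fintype n] [DecidableEq n] (A : Matrix n n ℂ) (hA : A.IsHermitian) (i : n) :
    Matrix.toEuclideanCLM (n := n) (𝕜 := ℂ) A (hA.eigenvectorBasis i) =
      ((hA.eigenvalues i : ℝ) : ℂ) • hA.eigenvectorBasis i := by
  apply WithLp.ofLp_injective
  rw [Matrix.ofLp_toEuclideanCLM]
  refine (hA.mulVec_eigenvectorBasis i).trans ?_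
  ext j
  simp

theorem MRC_aeval {n : Type} [Fintype n] [DecidableEq n] (d : n → ℝ) (h : ℝ[X]) :
    aeval (Matrix.diagonal (fun i => (d i : ℂ))) h = Matrix.diagonal (fun i => ((h.eval (d i) : ℝ) : ℂ)) := by
  induction h using Polynomial.induction_on' with
  | add p q hp hq =>
    rw [map_add, hp, hq, Matrix.diagonal_add]
    congr 1
    funext i
    rw [eval_add]
    push_cast
    rfl
  | monomial k a =>
    rw [aeval_monomial, Matrix.diagonal_pow]
    ext i j
    rw [Matrix.algebraMap_eq_diagonal, Matrix.diagonal_mul_diagonal]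
    congr 2
    funext l
    simp [eval_monomial]

theorem MRC_trace {n : Type} [Fintype n] [DecidableEq n] (A : Matrix n n ℂ) (hA : A.IsHermitian) (h : ℝ[X]) :
    Matrix.trace (aeval A h) = ((∑ i, h.eval (hA.eigenvalues i) : ℝ) : ℂ) := by
  set U : Matrix.unitaryGroup n ℂ := hA.eigenvectorUnitary with hU
  set D : Matrix n n ℂ := Matrix.diagonal (fun i => ((hA.eigenvalues i : ℝ) : ℂ)) with hD
  have h1 : A = (U : Matrix n n ℂ) * D * star (U : Matrix n n ℂ) := by
    have h2 := hA.spectral_theorem
    rw [Unitary.conjStarAlgAut_apply] at h2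
    exact h2
  have hUU : star (U : Matrix n n ℂ) * (U : Matrix n n ℂ) = 1 := Unitary.coe_star_mul_self U
  have hUU' : (U : Matrix n n ℂ) * star (U : Matrix n n ℂ) = 1 := Unitary.coe_mul_star_self U
  have h3 : ∀ p : ℝ[X], aeval A p = (U : Matrix n n ℂ) * aeval D p * star (U : Matrix n n ℂ) := by
    intro p
    induction p using Polynomial.induction_on' with
    | add p q hp hq => rw [map_add, map_add, hp, hq, mul_add, add_mul]
    | monomial k a =>
      have h4 : ∀ k : ℕ, A ^ k = (U : Matrix n n ℂ) * D ^ k * star (U : Matrix n n ℂ) := by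
        intro k
        induction k with
        | zero => rw [pow_zero, pow_zero, mul_one, hUU']
        | succ k ih =>
          rw [pow_succ, ih]
          conv_lhs => rw [h1]
          calc (U : Matrix n n ℂ) * D ^ k * star (U : Matrix n n ℂ) * ((U : Matrix n n ℂ) * D * star (U : Matrix n n ℂ))
              = (U : Matrix n n ℂ) * D ^ k * (star (U : Matrix n n ℂ) * (U : Matrix n n ℂ)) * D * star (U : Matrix n n ℂ) := by
                simp only [mul_assoc]
            _ = (U : Matrix n n ℂ) * D ^ (k + 1) * star (U : Matrix n n ℂ) := by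
                rw [hUU, mul_one, pow_succ]
                simp only [mul_assoc]
      rw [aeval_monomial, aeval_monomial, h4 k]
      rw [← mul_assoc, ← mul_assoc, Algebra.commutes a (U : Matrix n n ℂ)]
      simp only [mul_assoc]
  rw [h3 h, Matrix.trace_mul_comm, ← mul_assoc, hUU, one_mul, hD, MRC_aeval, Matrix.trace_diagonal]
  push_cast
  rfl

theorem MRC : MRC_stmt := by
  intro n _ _ A K hA hK
  refine ⟨hA.eigenvalues, ?_, MRC_trace A hA, ?_⟩
  · intro i
    have h1 := (Matrix.toEuclideanCLM (n := n) (𝕜 := ℂ) A).le_opNorm (hA.eigenvectorBasis i)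
    rw [MRC_apply, norm_smul, OrthonormalBasis.norm_eq_one, mul_one, mul_one, Complex.norm_real, Real.norm_eq_abs] at h1
    exact h1.trans hK
  · intro m hm hev
    apply ContinuousLinearMap.opNorm_le_bound _ hm
    intro v
    have hsym : (Matrix.toEuclideanLin A).IsSymmetric := Matrix.isSymmetric_toEuclideanLin_iff.mpr hA
    have h2 : ∀ i, inner ℂ (hA.eigenvectorBasis i) (Matrix.toEuclideanCLM (n := n) (𝕜 := ℂ) A v) =
        ((hA.eigenvalues i : ℝ) : ℂ) * inner ℂ (hA.eigenvectorBasis i) v := by
      intro i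
      have h3 := hsym (hA.eigenvectorBasis i) v
      have h4 : Matrix.toEuclideanLin A (hA.eigenvectorBasis i) = ((hA.eigenvalues i : ℝ) : ℂ) • hA.eigenvectorBasis i :=
        MRC_apply A hA i
      rw [h4, inner_smul_left, Complex.conj_ofReal] at h3
      exact h3.symm
    have h5 : ‖Matrix.toEuclideanCLM (n := n) (𝕜 := ℂ) A v‖ ^ 2 ≤ (m * ‖v‖) ^ 2 := by
      rw [← hA.eigenvectorBasis.sum_sq_norm_inner_right, mul_pow, ← hA.eigenvectorBasis.sum_sq_norm_inner_right v,
        Finset.mul_sum]
      apply Finset.sum_le_sum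
      intro i _
      rw [h2, norm_mul, mul_pow, Complex.norm_real, Real.norm_eq_abs]
      exact mul_le_mul_of_nonneg_right (pow_le_pow_left₀ (abs_nonneg _) (hev i) 2) (sq_nonneg _)
    exact le_of_sq_le_sq h5 (mul_nonneg hm (norm_nonneg _))

end Pool.Agent.QX
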