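import Pool.Agent.helper4.QX.SpecM
import Pool.Agent.helper72.RP.ADJ
import Pool.Agent.helper72.QX.MRC

set_option autoImplicit false

/-!
# Project QX (MP_07c750), row MRB
-/

open Polynomial
open Pool.Agent.QU Pool.Agent.RP

namespace Pool.Agent.QX

/-- a vector of vectors as one vector -/
noncomputable def MRB_V {D N : ℕ} (v : Fin D → EuclideanSpace ℂ (Fin N)) : EuclideanSpace ℂ (Fin D × Fin N) :=
  WithLp.toLp 2 (fun s => v s.1 s.2)

theorem MRB_norm {D N : ℕ} (v : Fin D → EuclideanSpace ℂ (Fin N)) : ‖MRB_V v‖ ^ 2 = ∑ i, ‖v i‖ ^ 2 := by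
  rw [EuclideanSpace.norm_sq_eq, Fintype.sum_prod_type]
  apply Finset.sum_congr rfl
  intro i _
  rw [EuclideanSpace.norm_sq_eq]
  rfl

theorem MRB_inner {D N : ℕ} (v w : Fin D → EuclideanSpace ℂ (Fin N)) :
    inner ℂ (MRB_V v) (MRB_V w) = ∑ i, inner ℂ (v i) (w i) := by
  rw [PiLp.inner_apply, Fintype.sum_prod_type]
  apply Finset.sum_congr rfl
  intro i _
  rw [PiLp.inner_apply]
  rfl

theorem MRB_rep {N : ℕ} (c : ℝ) (x : GI N → ℝ) (f : MonoidAlgebra ℂ F2) (v : EuclideanSpace ℂ (Fin N)) (a : Fin N) :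
    (rep (UR c x) f v) a = ∑ b, (∑ w ∈ f.coeff.support, f.coeff w *
      ((UG c x w : Matrix.unitaryGroup (Fin N) ℂ) : Matrix (Fin N) (Fin N) ℂ) a b) * v b := by
  unfold rep
  rw [sum_apply, WithLp.ofLp_sum, Finset.sum_apply]
  have h1 : ∀ w ∈ f.coeff.support, ((f.coeff w • ((UR c x w).toLinearIsometry.toContinuousLinearMap :
      EuclideanSpace ℂ (Fin N) →L[ℂ] EuclideanSpace ℂ (Fin N))) v) a =
      ∑ b, f.coeff w * ((UG c x w : Matrix.unitaryGroup (Fin N) ℂ) : Matrix (Fin N) (Fin N) ℂ) a b * v b := by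
    intro w _
    have h2 : ((f.coeff w • ((UR c x w).toLinearIsometry.toContinuousLinearMap :
      EuclideanSpace ℂ (Fin N) →L[ℂ] EuclideanSpace ℂ (Fin N))) v) a = f.coeff w * (isoU N (UG c x w) v a) := rfl
    rw [h2, isoU_apply, Finset.mul_sum]
    apply Finset.sum_congr rfl
    intro b _
    ring
  rw [Finset.sum_congr rfl h1, Finset.sum_comm]
  apply Finset.sum_congr rfl
  intro b _
  rw [Finset.sum_mul]

theorem MRB_app {D N : ℕ} (c : ℝ) (x : GI N → ℝ) (P : Mat D F2) (v : Fin D → EuclideanSpace ℂ (Fin N)) :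
    Matrix.toEuclideanCLM (n := Fin D × Fin N) (𝕜 := ℂ) (RM c x P) (MRB_V v) =
      MRB_V (fun i => ∑ j, rep (UR c x) (P i j) (v j)) := by
  apply WithLp.ofLp_injective
  rw [Matrix.ofLp_toEuclideanCLM]
  funext s
  show ∑ t : Fin D × Fin N, RM c x P s t * v t.1 t.2 = (∑ j, rep (UR c x) (P s.1 j) (v j)) s.2
  rw [WithLp.ofLp_sum, Finset.sum_apply, Fintype.sum_prod_type]
  apply Finset.sum_congr rfl
  intro j _
  rw [MRB_rep]
  rfl

theorem MRB_surj {D N : ℕ} (V : EuclideanSpace ℂ (Fin D × Fin N)) :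
    ∃ v : Fin D → EuclideanSpace ℂ (Fin N), MRB_V v = V :=
  ⟨fun i => WithLp.toLp 2 (fun a => V (i, a)), rfl⟩

theorem MRB_herm {D N : ℕ} (c : ℝ) (x : GI N → ℝ) (P : Mat D F2) (hP : SA P) : (RM c x P).IsHermitian := by
  have hc : ∀ (i j : Fin D) (w : F2), (P i j).coeff w⁻¹ = star ((P j i).coeff w) := by
    intro i j w
    rw [← hP j i, ADJ_coeff, inv_inv]
  ext s t
  rw [Matrix.conjTranspose_apply]
  unfold RM
  rw [star_sum]
  refine Finset.sum_nbij' (fun w => w⁻¹) (fun w => w⁻¹) ?_ ?_ ?_ ?_ ?_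
  · intro w hw
    rw [Finsupp.mem_support_iff] at hw ⊢
    rw [hc]
    exact star_ne_zero.mpr hw
  · intro w hw
    rw [Finsupp.mem_support_iff] at hw ⊢
    rw [hc]
    exact star_ne_zero.mpr hw
  · intro w _
    exact inv_inv w
  · intro w _
    exact inv_inv w
  · intro w _
    rw [hc, star_mul', map_inv]
    rfl

theorem MRB : MRB_stmt := by
  intro D N c x P r hr
  constructor
  · constructor
    · intro h
      apply ContinuousLinearMap.opNorm_le_bound _ hr
      intro V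
      obtain ⟨v, rfl⟩ := MRB_surj V
      apply le_of_sq_le_sq _ (mul_nonneg hr (norm_nonneg _))
      rw [MRB_app, MRB_norm, mul_pow, MRB_norm]
      exact h v
    · intro h v
      have h1 := (Matrix.toEuclideanCLM (n := Fin D × Fin N) (𝕜 := ℂ) (RM c x P)).le_of_opNorm_le h (MRB_V v)
      have h2 := pow_le_pow_left₀ (norm_nonneg _) h1 2
      rw [MRB_app, MRB_norm, mul_pow, MRB_norm] at h2
      exact h2
  · intro hP hU
    have hH := MRB_herm c x P hP
    have hev : ∀ i, |hH.eigenvalues i| ≤ r := by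
      intro i
      obtain ⟨v, hv⟩ := MRB_surj (hH.eigenvectorBasis i)
      have h1 := hU (EuclideanSpace ℂ (Fin N)) (UR c x) v
      have h2 : (∑ i, ∑ j, inner ℂ (v i) (rep (UR c x) (P i j) (v j))) =
          inner ℂ (MRB_V v) (Matrix.toEuclideanCLM (n := Fin D × Fin N) (𝕜 := ℂ) (RM c x P) (MRB_V v)) := by
        rw [MRB_app, MRB_inner]
        apply Finset.sum_congr rfl
        intro i _
        rw [inner_sum]
      rw [h2, ← MRB_norm, hv, MRC_apply, inner_smul_right, inner_self_eq_norm_sq_to_K, OrthonormalBasis.norm_eq_one] at h1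
      simpa using h1
    have hsym : (Matrix.toEuclideanLin (RM c x P)).IsSymmetric := Matrix.isSymmetric_toEuclideanLin_iff.mpr hH
    apply ContinuousLinearMap.opNorm_le_bound _ hr
    intro v
    have h2 : ∀ i, inner ℂ (hH.eigenvectorBasis i) (Matrix.toEuclideanCLM (n := Fin D × Fin N) (𝕜 := ℂ) (RM c x P) v) =
        ((hH.eigenvalues i : ℝ) : ℂ) * inner ℂ (hH.eigenvectorBasis i) v := by
      intro i
      have h3 := hsym (hH.eigenvectorBasis i) v
      have h4 : Matrix.toEuclideanLin (RM c x P) (hH.eigenvectorBasis i) = ((hH.eigenvalues i : ℝ) : ℂ) • hH.eigenvectorBasis i :=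
        MRC_apply _ hH i
      rw [h4, inner_smul_left, Complex.conj_ofReal] at h3
      exact h3.symm
    have h5 : ‖Matrix.toEuclideanCLM (n := Fin D × Fin N) (𝕜 := ℂ) (RM c x P) v‖ ^ 2 ≤ (r * ‖v‖) ^ 2 := by
      rw [← hH.eigenvectorBasis.sum_sq_norm_inner_right, mul_pow, ← hH.eigenvectorBasis.sum_sq_norm_inner_right v,
        Finset.mul_sum]
      apply Finset.sum_le_sum
      intro i _
      rw [h2, norm_mul, mul_pow, Complex.norm_real, Real.norm_eq_abs]
      exact mul_le_mul_of_nonneg_right (pow_le_pow_left₀ (abs_nonneg _) (hev i) 2) (sq_nonneg _)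
    exact le_of_sq_le_sq h5 (mul_nonneg hr (norm_nonneg _))

end Pool.Agent.QX
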