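import Pool.Agent.helper37.QX.SpecG

set_option autoImplicit false

/-!
# Project QX (MP_07c750), row JZ
-/

open Filter Set

namespace Pool.Agent.QX

theorem JZ_bound (k : ℕ) (c : ℝ) (hc : |c| ≤ 2) :
    ‖(-1 : ℝ) ^ k * c ^ (2 * k) / ((k.factorial : ℝ) * ((k + 1).factorial : ℝ))‖ ≤
      4 ^ k / (k.factorial : ℝ) := by
  have h1 : (0 : ℝ) < (k.factorial : ℝ) := by exact_mod_cast k.factorial_pos
  have h2 : (1 : ℝ) ≤ ((k + 1).factorial : ℝ) := by exact_mod_cast (k + 1).factorial_pos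
  rw [norm_div, norm_mul, norm_pow, norm_neg, norm_one, one_pow, one_mul, norm_pow, Real.norm_eq_abs,
    Real.norm_of_nonneg (by positivity), pow_mul]
  have h3 : (|c| ^ 2) ^ k ≤ 4 ^ k := by
    apply pow_le_pow_left₀ (sq_nonneg _)
    have := pow_le_pow_left₀ (abs_nonneg c) hc 2
    norm_num at this ⊢
    exact this
  rw [div_le_div_iff₀ (by positivity) h1]
  calc (|c| ^ 2) ^ k * (k.factorial : ℝ) ≤ 4 ^ k * (k.factorial : ℝ) := mul_le_mul_of_nonneg_right h3 h1.le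
    _ = 4 ^ k * ((k.factorial : ℝ) * 1) := by ring
    _ ≤ 4 ^ k * ((k.factorial : ℝ) * ((k + 1).factorial : ℝ)) := by
        apply mul_le_mul_of_nonneg_left _ (by positivity)
        exact mul_le_mul_of_nonneg_left h2 h1.le

theorem JZ_cont : ContinuousOn Jf (Icc 0 2) := by
  unfold Jf
  apply continuousOn_tsum (u := fun k : ℕ => 4 ^ k / (k.factorial : ℝ))
  · intro k
    fun_prop
  · exact Real.summable_pow_div_factorial 4
  · intro k c hc
    exact JZ_bound k c (by rw [abs_of_nonneg hc.1]; exact hc.2)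

theorem JZ_zero : Jf 0 = 1 := by
  unfold Jf
  rw [tsum_eq_single 0]
  · simp
  · intro k hk
    rw [zero_pow (by omega), mul_zero, zero_div]

theorem JZ_tail (j : ℕ) : ‖(-1 : ℝ) ^ (j + 6) * 2 ^ (2 * (j + 6)) /
    (((j + 6).factorial : ℝ) * ((j + 6 + 1).factorial : ℝ))‖ ≤ (1 / 800) * (1 / 2) ^ j := by
  induction j with
  | zero =>
    rw [norm_div, norm_mul, norm_pow, norm_neg, norm_one, one_pow, one_mul]
    norm_num [Nat.factorial]
  | succ j ih =>
    have e1 : (-1 : ℝ) ^ (j + 1 + 6) * 2 ^ (2 * (j + 1 + 6)) /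
        (((j + 1 + 6).factorial : ℝ) * ((j + 1 + 6 + 1).factorial : ℝ)) =
        ((-1 : ℝ) ^ (j + 6) * 2 ^ (2 * (j + 6)) / (((j + 6).factorial : ℝ) * ((j + 6 + 1).factorial : ℝ))) *
        (-4 / (((j : ℝ) + 7) * ((j : ℝ) + 8))) := by
      have f5 : ((j + 6 + 1).factorial : ℝ) = ((j : ℝ) + 7) * ((j + 6).factorial : ℝ) := by
        rw [Nat.factorial_succ]
        push_cast
        ring
      have f2 : ((j + 1 + 6 + 1).factorial : ℝ) = ((j : ℝ) + 8) * (((j : ℝ) + 7) * ((j + 6).factorial : ℝ)) := by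
        rw [show j + 1 + 6 + 1 = (j + 6 + 1) + 1 by ring, Nat.factorial_succ]
        push_cast
        rw [f5]
        ring
      have g1 : ((j + 6).factorial : ℝ) ≠ 0 := by exact_mod_cast (j + 6).factorial_ne_zero
      have f3 : (-1 : ℝ) ^ (j + 1 + 6) = (-1) ^ (j + 6) * (-1) := by
        rw [show j + 1 + 6 = (j + 6) + 1 by ring, pow_succ]
      have f4 : (2 : ℝ) ^ (2 * (j + 1 + 6)) = 2 ^ (2 * (j + 6)) * 4 := by
        rw [show 2 * (j + 1 + 6) = 2 * (j + 6) + 2 by ring, pow_add]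
        norm_num
      rw [f2, f5, f3, f4]
      have g3 : ((j : ℝ) + 7) ≠ 0 := by positivity
      have g4 : ((j : ℝ) + 8) ≠ 0 := by positivity
      generalize ((j + 6).factorial : ℝ) = F1 at g1 ⊢
      generalize (-1 : ℝ) ^ (j + 6) = a
      generalize (2 : ℝ) ^ (2 * (j + 6)) = b
      field_simp
    rw [e1, norm_mul, show (1 / 800 : ℝ) * (1 / 2) ^ (j + 1) = (1 / 800 * (1 / 2) ^ j) * (1 / 2) by ring]
    apply mul_le_mul ih _ (norm_nonneg _) (by positivity)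
    rw [norm_div, norm_neg, Real.norm_of_nonneg (by norm_num), Real.norm_of_nonneg (by positivity),
      div_le_div_iff₀ (by positivity) (by norm_num)]
    have hj : (0 : ℝ) ≤ (j : ℝ) := Nat.cast_nonneg j
    nlinarith

theorem JZ_two : Jf 2 < 0 := by
  have hs : Summable (fun k : ℕ => (-1 : ℝ) ^ k * 2 ^ (2 * k) / ((k.factorial : ℝ) * ((k + 1).factorial : ℝ))) := by
    apply Summable.of_norm_bounded (Real.summable_pow_div_factorial 4)
    intro k
    exact JZ_bound k 2 (by norm_num)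
  have h1 := hs.sum_add_tsum_nat_add 6
  have h2 : ‖∑' j : ℕ, (-1 : ℝ) ^ (j + 6) * 2 ^ (2 * (j + 6)) /
      (((j + 6).factorial : ℝ) * ((j + 6 + 1).factorial : ℝ))‖ ≤ (1 / 800) * 2 :=
    tsum_of_norm_bounded (hasSum_geometric_two.mul_left (1 / 800)) JZ_tail
  rw [Real.norm_eq_abs] at h2
  have h3 := (abs_le.mp h2).2
  have h4 : Jf 2 = ∑' k : ℕ, (-1 : ℝ) ^ k * 2 ^ (2 * k) / ((k.factorial : ℝ) * ((k + 1).factorial : ℝ)) := rfl
  rw [h4, ← h1]
  have h5 : ∑ k ∈ Finset.range 6, (-1 : ℝ) ^ k * 2 ^ (2 * k) / ((k.factorial : ℝ) * ((k + 1).factorial : ℝ)) = -(1 / 45) - 8 / 675 := by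
    simp only [Finset.sum_range_succ, Finset.sum_range_zero]
    norm_num [Nat.factorial]
  rw [h5]
  linarith

theorem JZ : JZ_stmt := by
  have h1 := intermediate_value_Icc' (show (0 : ℝ) ≤ 2 by norm_num) JZ_cont
  have h2 : (0 : ℝ) ∈ Icc (Jf 2) (Jf 0) := ⟨JZ_two.le, by rw [JZ_zero]; norm_num⟩
  obtain ⟨c, hc, hc0⟩ := h1 h2
  refine ⟨c, ?_, hc.2, hc0⟩
  rcases hc.1.lt_or_eq with h | h
  · exact h
  · exfalso
    rw [← h, JZ_zero] at hc0
    exact one_ne_zero hc0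

end Pool.Agent.QX
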