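import Pool.Agent.helper33.QX.SpecA

set_option autoImplicit false

/-!
# Project QX (MP_07c750), row MUL
-/

open MeasureTheory Filter Set
open scoped ContDiff

namespace Pool.Agent.QX

theorem MUL_int (θ : ℝ → ℝ) (hθ : TK θ) (g : ℝ → ℂ) (hg : Continuous g) :
    Integrable (fun v : ℝ => (θ v : ℂ) * g v) := by
  apply Continuous.integrable_of_hasCompactSupport
  · exact (Complex.continuous_ofReal.comp hθ.smooth.continuous).mul hg
  · have h1 : HasCompactSupport (fun v : ℝ => (θ v : ℂ)) := hθ.supp.comp_left Complex.ofReal_zero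
    exact h1.mul_right

theorem MUL_intR (θ : ℝ → ℝ) (hθ : TK θ) (g : ℝ → ℝ) (hg : Continuous g) :
    Integrable (fun v : ℝ => θ v * g v) := by
  apply Continuous.integrable_of_hasCompactSupport
  · exact hθ.smooth.continuous.mul hg
  · exact hθ.supp.mul_right

theorem MUL_a (θ : ℝ → ℝ) (hθ : TK θ) (s : ℝ) :
    ‖fI θ s - ((∫ v, θ v : ℝ) : ℂ)‖ ≤ |s| * ∫ v, |θ v * v| := by
  have hc : Continuous fun v : ℝ => Complex.exp (Complex.I * (s * v : ℝ)) := by fun_prop
  have e1 : fI θ s - ((∫ v, θ v : ℝ) : ℂ) = ∫ v : ℝ, (θ v : ℂ) * (Complex.exp (Complex.I * (s * v : ℝ)) - 1) := by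
    unfold fI
    rw [← integral_complex_ofReal]
    have i1 := MUL_int θ hθ _ hc
    have i2 := MUL_int θ hθ (fun _ => 1) continuous_const
    simp only [mul_one] at i2
    rw [← integral_sub i1 i2]
    apply integral_congr_ae
    filter_upwards with v
    ring
  rw [e1, ← integral_const_mul]
  apply norm_integral_le_of_norm_le
  · exact (((MUL_intR θ hθ (fun v => v) continuous_id).norm).const_mul |s|)
  · filter_upwards with v
    rw [norm_mul, Complex.norm_real]
    have h1 := Real.norm_exp_I_mul_ofReal_sub_one_le (x := s * v)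
    calc ‖θ v‖ * ‖Complex.exp (Complex.I * (s * v : ℝ)) - 1‖ ≤ ‖θ v‖ * ‖s * v‖ :=
          mul_le_mul_of_nonneg_left h1 (norm_nonneg _)
      _ = |s| * |θ v * v| := by
          rw [norm_mul, Real.norm_eq_abs, Real.norm_eq_abs, Real.norm_eq_abs, abs_mul]
          ring

theorem MUL_c (θ : ℝ → ℝ) (s : ℝ) (hθ : TK θ) : ‖fI θ s‖ ≤ ∫ v, |θ v| := by
  unfold fI
  apply norm_integral_le_of_norm_le
  · have h := (MUL_intR θ hθ (fun _ => 1) continuous_const)
    simp only [mul_one] at h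
    exact h.norm
  · filter_upwards with v
    rw [norm_mul, Complex.norm_real, mul_comm Complex.I, Complex.norm_exp_ofReal_mul_I, mul_one, Real.norm_eq_abs]

theorem MUL_b (θ : ℝ → ℝ) (hθ : TK θ) (s : ℝ) : |s| * ‖fI θ s‖ ≤ ∫ v, |deriv θ v| := by
  have hc : Continuous fun v : ℝ => Complex.exp (Complex.I * (s * v : ℝ)) := by fun_prop
  have hd : Continuous (deriv θ) := hθ.smooth.continuous_deriv (by simp)
  have hds : HasCompactSupport (deriv θ) := hθ.supp.deriv
  have hu : ∀ v : ℝ, HasDerivAt (fun v : ℝ => (θ v : ℂ)) ((deriv θ v : ℝ) : ℂ) v := by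
    intro v
    have h1 : DifferentiableAt ℝ θ v := (hθ.smooth.differentiable (by simp)) v
    exact h1.hasDerivAt.ofReal_comp
  have hv : ∀ v : ℝ, HasDerivAt (fun v : ℝ => Complex.exp (Complex.I * (s * v : ℝ)))
      (Complex.I * s * Complex.exp (Complex.I * (s * v : ℝ))) v := by
    intro v
    have h1 : HasDerivAt (fun v : ℝ => Complex.I * ((s * v : ℝ) : ℂ)) (Complex.I * s) v := by
      have h2 : HasDerivAt (fun v : ℝ => s * v) s v := by
        have := (hasDerivAt_id v).const_mul s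
        rw [mul_one] at this
        exact this
      exact (h2.ofReal_comp).const_mul Complex.I
    have h3 := h1.cexp
    rw [mul_comm] at h3
    exact h3
  have i1 : Integrable (fun v : ℝ => (θ v : ℂ) * (Complex.I * s * Complex.exp (Complex.I * (s * v : ℝ)))) :=
    MUL_int θ hθ _ (continuous_const.mul hc)
  have i3 : Integrable (fun v : ℝ => (θ v : ℂ) * Complex.exp (Complex.I * (s * v : ℝ))) := MUL_int θ hθ _ hc
  have i2 : Integrable (fun v : ℝ => ((deriv θ v : ℝ) : ℂ) * Complex.exp (Complex.I * (s * v : ℝ))) := by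
    apply Continuous.integrable_of_hasCompactSupport
    · exact (Complex.continuous_ofReal.comp hd).mul hc
    · have h1 : HasCompactSupport (fun v : ℝ => ((deriv θ v : ℝ) : ℂ)) := hds.comp_left Complex.ofReal_zero
      exact h1.mul_right
  have h4 := integral_mul_deriv_eq_deriv_mul_of_integrable (fun v _ => hu v) (fun v _ => hv v) i1 i2 i3
  have h5 : ∫ v : ℝ, (θ v : ℂ) * (Complex.I * s * Complex.exp (Complex.I * (s * v : ℝ))) = Complex.I * s * fI θ s := by
    unfold fI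
    rw [← integral_const_mul]
    apply integral_congr_ae
    filter_upwards with v
    ring
  rw [h5] at h4
  have h6 : |s| * ‖fI θ s‖ = ‖Complex.I * s * fI θ s‖ := by
    rw [norm_mul, norm_mul, Complex.norm_I, one_mul, Complex.norm_real, Real.norm_eq_abs]
  rw [h6, h4, norm_neg]
  apply norm_integral_le_of_norm_le
  · exact (hd.integrable_of_hasCompactSupport hds).norm
  · filter_upwards with v
    rw [norm_mul, Complex.norm_real, mul_comm Complex.I, Complex.norm_exp_ofReal_mul_I, mul_one, Real.norm_eq_abs]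

theorem MUL : MUL_stmt := by
  intro θ hθ
  set A := ∫ v, |θ v| with hA
  set B := ∫ v, |θ v * v| with hB
  set D := ∫ v, |deriv θ v| with hD
  have hA0 : 0 ≤ A := integral_nonneg fun v => abs_nonneg _
  have hB0 : 0 ≤ B := integral_nonneg fun v => abs_nonneg _
  have hD0 : 0 ≤ D := integral_nonneg fun v => abs_nonneg _
  refine ⟨4 * (B ^ 2 + D ^ 2) + 2 * (B ^ 2 + (1 + A) ^ 2), by positivity, ?_⟩
  intro s
  have ha := MUL_a θ hθ s
  have hb := MUL_b θ hθ s
  have hc := MUL_c θ s hθ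
  rw [← hB] at ha
  rw [← hD] at hb
  rw [← hA] at hc
  have hs2 : |s| ^ 2 = s ^ 2 := sq_abs s
  have hB2 : 0 ≤ B ^ 2 := sq_nonneg _
  have hD2 : 0 ≤ D ^ 2 := sq_nonneg _
  have hA2 : 0 ≤ (1 + A) ^ 2 := sq_nonneg _
  constructor
  · intro h0
    rw [h0, Complex.ofReal_zero, sub_zero] at ha
    have hpos : 0 < (1 + s ^ 2) ^ 2 := by positivity
    rw [← mul_div_assoc, le_div_iff₀ hpos]
    rcases le_total (s ^ 2) 1 with hs | hs
    · have h1 : ‖fI θ s‖ ^ 2 ≤ s ^ 2 * B ^ 2 := by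
        have := pow_le_pow_left₀ (norm_nonneg _) ha 2
        rw [mul_pow, hs2] at this
        exact this
      have h2 : (1 + s ^ 2) ^ 2 ≤ 4 := by nlinarith [sq_nonneg s]
      calc ‖fI θ s‖ ^ 2 * (1 + s ^ 2) ^ 2 ≤ (s ^ 2 * B ^ 2) * 4 :=
            mul_le_mul h1 h2 hpos.le (by positivity)
        _ ≤ (4 * (B ^ 2 + D ^ 2) + 2 * (B ^ 2 + (1 + A) ^ 2)) * s ^ 2 := by
            nlinarith [mul_nonneg (sq_nonneg s) hB2, mul_nonneg (sq_nonneg s) hD2, mul_nonneg (sq_nonneg s) hA2]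
    · have h1 : s ^ 2 * ‖fI θ s‖ ^ 2 ≤ D ^ 2 := by
        have := pow_le_pow_left₀ (by positivity) hb 2
        rw [mul_pow, hs2] at this
        exact this
      have h2 : (1 + s ^ 2) ^ 2 ≤ 4 * (s ^ 2) ^ 2 := by nlinarith [sq_nonneg s]
      calc ‖fI θ s‖ ^ 2 * (1 + s ^ 2) ^ 2 ≤ ‖fI θ s‖ ^ 2 * (4 * (s ^ 2) ^ 2) :=
            mul_le_mul_of_nonneg_left h2 (sq_nonneg _)
        _ = 4 * s ^ 2 * (s ^ 2 * ‖fI θ s‖ ^ 2) := by ring
        _ ≤ 4 * s ^ 2 * D ^ 2 := mul_le_mul_of_nonneg_left h1 (by positivity)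
        _ ≤ (4 * (B ^ 2 + D ^ 2) + 2 * (B ^ 2 + (1 + A) ^ 2)) * s ^ 2 := by
            nlinarith [mul_nonneg (sq_nonneg s) hB2, mul_nonneg (sq_nonneg s) hD2, mul_nonneg (sq_nonneg s) hA2]
  · intro h1'
    rw [h1', Complex.ofReal_one, norm_sub_rev] at ha
    have hpos : 0 < (1 + s ^ 2) := by positivity
    rw [← mul_div_assoc, le_div_iff₀ hpos]
    rcases le_total (s ^ 2) 1 with hs | hs
    · have h1 : ‖1 - fI θ s‖ ^ 2 ≤ s ^ 2 * B ^ 2 := by
        have := pow_le_pow_left₀ (norm_nonneg _) ha 2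
        rw [mul_pow, hs2] at this
        exact this
      calc ‖1 - fI θ s‖ ^ 2 * (1 + s ^ 2) ≤ (s ^ 2 * B ^ 2) * 2 :=
            mul_le_mul h1 (by linarith) hpos.le (by positivity)
        _ ≤ (4 * (B ^ 2 + D ^ 2) + 2 * (B ^ 2 + (1 + A) ^ 2)) * s ^ 2 := by
            nlinarith [mul_nonneg (sq_nonneg s) hB2, mul_nonneg (sq_nonneg s) hD2, mul_nonneg (sq_nonneg s) hA2]
    · have h1 : ‖1 - fI θ s‖ ^ 2 ≤ (1 + A) ^ 2 := by
        apply pow_le_pow_left₀ (norm_nonneg _)
        refine (norm_sub_le _ _).trans ?_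
        rw [norm_one]
        linarith
      calc ‖1 - fI θ s‖ ^ 2 * (1 + s ^ 2) ≤ (1 + A) ^ 2 * (2 * s ^ 2) :=
            mul_le_mul h1 (by linarith) hpos.le (by positivity)
        _ ≤ (4 * (B ^ 2 + D ^ 2) + 2 * (B ^ 2 + (1 + A) ^ 2)) * s ^ 2 := by
            nlinarith [mul_nonneg (sq_nonneg s) hB2, mul_nonneg (sq_nonneg s) hD2, mul_nonneg (sq_nonneg s) hA2]

end Pool.Agent.QX
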