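import Pool.Agent.helper4.QX.SpecM

set_option autoImplicit false

/-!
# Project QX (MP_07c750), row TCH
-/

open Polynomial
open Pool.Agent.QU Pool.Agent.RP

namespace Pool.Agent.QX

theorem TCH_rec (A B : ℝ[X]) (ρ a b : ℝ) (h0 : 0 ≤ ρ) (h1 : ρ ≤ 1)
    (hA : ∀ n : ℕ, ∑ i ∈ Finset.range n, |A.coeff i| * ρ ^ i ≤ a)
    (hB : ∀ n : ℕ, ∑ i ∈ Finset.range n, |B.coeff i| * ρ ^ i ≤ b) (ha : 0 ≤ a) (n : ℕ) :
    ∑ i ∈ Finset.range n, |(2 * X * A - B).coeff i| * ρ ^ i ≤ 2 * a + b := by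
  cases n with
  | zero =>
    have hb := hB 0
    simp only [Finset.range_zero, Finset.sum_empty] at hb ⊢
    linarith
  | succ n =>
    rw [Finset.sum_range_succ']
    have e0 : (2 * X * A - B).coeff 0 = - B.coeff 0 := by
      rw [coeff_sub, mul_assoc, mul_comm X A, ← mul_assoc, coeff_mul_X_zero, zero_sub]
    have e1 : ∀ i : ℕ, (2 * X * A - B).coeff (i + 1) = 2 * A.coeff i - B.coeff (i + 1) := by
      intro i
      have h2 : (2 * X * A : ℝ[X]) = C 2 * A * X := by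
        rw [show (2 : ℝ[X]) = C 2 from rfl]
        ring
      rw [coeff_sub, h2, coeff_mul_X, coeff_C_mul]
    rw [e0, abs_neg, pow_zero, mul_one]
    have h3 : ∀ i ∈ Finset.range n, |(2 * X * A - B).coeff (i + 1)| * ρ ^ (i + 1) ≤
        2 * (|A.coeff i| * ρ ^ i) + |B.coeff (i + 1)| * ρ ^ (i + 1) := by
      intro i _
      rw [e1]
      have h4 : |2 * A.coeff i - B.coeff (i + 1)| ≤ 2 * |A.coeff i| + |B.coeff (i + 1)| := by
        refine (abs_sub _ _).trans ?_
        rw [abs_mul, abs_of_pos (two_pos : (0 : ℝ) < 2)]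
      have h5 : 0 ≤ ρ ^ (i + 1) := pow_nonneg h0 _
      have h6 : ρ ^ (i + 1) ≤ ρ ^ i := pow_le_pow_of_le_one h0 h1 (Nat.le_succ i)
      calc |2 * A.coeff i - B.coeff (i + 1)| * ρ ^ (i + 1)
          ≤ (2 * |A.coeff i| + |B.coeff (i + 1)|) * ρ ^ (i + 1) := mul_le_mul_of_nonneg_right h4 h5
        _ = 2 * |A.coeff i| * ρ ^ (i + 1) + |B.coeff (i + 1)| * ρ ^ (i + 1) := by ring
        _ ≤ 2 * |A.coeff i| * ρ ^ i + |B.coeff (i + 1)| * ρ ^ (i + 1) := by
            have := mul_le_mul_of_nonneg_left h6 (mul_nonneg (zero_le_two) (abs_nonneg (A.coeff i)) : 0 ≤ 2 * |A.coeff i|)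
            linarith
        _ = 2 * (|A.coeff i| * ρ ^ i) + |B.coeff (i + 1)| * ρ ^ (i + 1) := by ring
    have h7 := Finset.sum_le_sum h3
    rw [Finset.sum_add_distrib, ← Finset.mul_sum] at h7
    have h8 := hB (n + 1)
    rw [Finset.sum_range_succ', pow_zero, mul_one] at h8
    have h9 := hA n
    linarith

theorem TCH_sum (ρ : ℝ) (h0 : 0 ≤ ρ) (h1 : ρ ≤ 1) (j : ℕ) :
    (∀ n : ℕ, ∑ i ∈ Finset.range n, |(Polynomial.Chebyshev.T ℝ (j : ℤ)).coeff i| * ρ ^ i ≤ 3 ^ j) ∧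
    (∀ n : ℕ, ∑ i ∈ Finset.range n, |(Polynomial.Chebyshev.T ℝ ((j + 1 : ℕ) : ℤ)).coeff i| * ρ ^ i ≤ 3 ^ (j + 1)) := by
  induction j with
  | zero =>
    constructor
    · intro n
      have h2 : Polynomial.Chebyshev.T ℝ ((0 : ℕ) : ℤ) = 1 := by
        rw [Nat.cast_zero, Polynomial.Chebyshev.T_zero]
      rw [h2]
      have h3 : ∀ i ∈ Finset.range n, |(1 : ℝ[X]).coeff i| * ρ ^ i = if i = 0 then 1 else 0 := by
        intro i _
        rw [coeff_one]
        split_ifs with hi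
        · rw [hi]
          simp
        · simp
      rw [Finset.sum_congr rfl h3, Finset.sum_ite_eq']
      split_ifs <;> norm_num
    · intro n
      have h2 : Polynomial.Chebyshev.T ℝ ((0 + 1 : ℕ) : ℤ) = X := by
        rw [zero_add, Nat.cast_one, Polynomial.Chebyshev.T_one]
      rw [h2]
      have h3 : ∀ i ∈ Finset.range n, |(X : ℝ[X]).coeff i| * ρ ^ i = if i = 1 then ρ else 0 := by
        intro i _
        rw [coeff_X]
        by_cases hi : i = 1
        · rw [hi]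
          simp
        · rw [if_neg (fun h => hi h.symm), if_neg hi]
          simp
      rw [Finset.sum_congr rfl h3, Finset.sum_ite_eq']
      rw [zero_add, pow_one]
      split_ifs
      · linarith
      · norm_num
  | succ j ih =>
    refine ⟨ih.2, ?_⟩
    intro n
    have h2 : Polynomial.Chebyshev.T ℝ ((j + 1 + 1 : ℕ) : ℤ) =
        2 * X * Polynomial.Chebyshev.T ℝ ((j + 1 : ℕ) : ℤ) - Polynomial.Chebyshev.T ℝ (j : ℤ) := by
      have h3 := Polynomial.Chebyshev.T_add_two ℝ (j : ℤ)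
      push_cast
      rw [show (j : ℤ) + 1 + 1 = (j : ℤ) + 2 by ring]
      exact h3
    rw [h2]
    refine (TCH_rec _ _ ρ _ _ h0 h1 ih.2 ih.1 (by positivity) n).trans ?_
    have h4 : (0 : ℝ) < 3 ^ j := by positivity
    rw [pow_succ, pow_succ, pow_succ]
    linarith

theorem TCH : TCH_stmt := by
  refine ⟨fun j ρ h0 h1 => (TCH_sum ρ h0 h1 j).1 _, ?_, ?_, ?_⟩
  · intro j
    apply natDegree_le_of_degree_le
    rw [Polynomial.Chebyshev.degree_T]
    simp
  · intro j θ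
    rw [Polynomial.Chebyshev.T_real_cos]
    push_cast
    rfl
  · intro n
    unfold ball
    refine Finset.card_image_le.trans ?_
    rw [Finset.card_univ, Fintype.card_sigma]
    have h1 : ∀ k : Fin (n + 1), Fintype.card (Fin k → Ltr) = 4 ^ (k : ℕ) := by
      intro k
      rw [Fintype.card_fun, Fintype.card_fin]
      rfl
    rw [Finset.sum_congr rfl fun k _ => h1 k, Fin.sum_univ_eq_sum_range (fun k => 4 ^ k) (n + 1)]
    have h2 := Nat.geomSum_eq (m := 4) (by norm_num) (n + 1)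
    rw [h2]
    exact (Nat.div_le_self _ _).trans (Nat.sub_le _ _)

end Pool.Agent.QX
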