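import Pool.Agent.helper4.QX.SpecF

/-! Row qf:EDC (MP_07c750_an): the Poisson equation with bounds -/

set_option autoImplicit false

open scoped MatrixGroups ContDiff Topology UpperHalfPlane
open UpperHalfPlane MeasureTheory ProbabilityTheory Filter Set Polynomial
open Pool.Agent.QU Pool.Agent.RP

namespace Pool.Agent.QX

theorem EDC_cosh (d : ℝ) (hd : 0 ≤ d) : d ^ 2 / 2 ≤ Real.cosh d - 1 := by
  have h1 : Real.cosh d = 2 * Real.sinh (d / 2) ^ 2 + 1 := by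
    have h2 := Real.cosh_two_mul (d / 2)
    rw [Real.cosh_sq, show 2 * (d / 2) = d by ring] at h2
    rw [h2]; ring
  have h3 : d / 2 ≤ Real.sinh (d / 2) := Real.self_le_sinh_iff.2 (by linarith)
  rw [h1]
  nlinarith

theorem EDC_int (κ : ℝ → ℝ) (hκ : RK κ) (z : ℍ) : Integrable (fun w : ℍ => κ (tt z w)) := by
  obtain ⟨-, -, hsymm, -, hc, -⟩ := A_TTT
  have h1 := A_LAK.2.2.1 κ z hκ
  have h2 : (fun w : ℍ => κ (tt z w)) = fun w => κ (tt w z) := by
    funext w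
    rw [hsymm]
  rw [h2]
  refine Continuous.integrable_of_hasCompactSupport ?_ h1
  exact hκ.smooth.continuous.comp (hc.comp (by fun_prop : Continuous fun w : ℍ => (w, z)))

theorem EDC_bd (κ : ℝ → ℝ) (hκ : RK κ) (hpos : ∀ t, 0 ≤ t → 0 ≤ κ t) (c m : ℝ)
    (hc : ∀ z : ℍ, ∫ w : ℍ, κ (tt z w) ≤ c) (hm : 0 ≤ m) (f : ℍ → ℝ) (hf : ∀ z, |f z| ≤ m)
    (z : ℍ) : |conv κ f z| ≤ c * m := by
  have h1 : ‖∫ w : ℍ, κ (tt z w) • f w‖ ≤ ∫ w : ℍ, κ (tt z w) * m := by
    refine norm_integral_le_of_norm_le ((EDC_int κ hκ z).mul_const m)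
      (Eventually.of_forall fun w => ?_)
    have h2 := hpos _ (A_TTT.2.1 z w)
    rw [norm_smul, Real.norm_eq_abs, Real.norm_eq_abs, abs_of_nonneg h2]
    exact mul_le_mul_of_nonneg_left (hf w) h2
  rw [integral_mul_const, Real.norm_eq_abs] at h1
  exact h1.trans (mul_le_mul_of_nonneg_right (hc z) hm)

theorem EDC_diff (κ : ℝ → ℝ) (hκ : RK κ) (hpos : ∀ t, 0 ≤ t → 0 ≤ κ t)
    (hc : ∀ z : ℍ, ∫ w : ℍ, κ (tt z w) ≤ 1) (m : ℝ) (hm : 0 ≤ m) (f g : ℍ → ℝ)
    (hf : Continuous f) (hg : Continuous g) (hfg : ∀ z, |f z - g z| ≤ m) (z : ℍ) :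
    |conv κ f z - conv κ g z| ≤ m := by
  have h1 := (A_CVB ℝ).2.1 κ f g 1 (-1) z hκ hf hg
  have h2 : conv κ f z - conv κ g z = conv κ (fun w => (1 : ℝ) • f w + (-1 : ℝ) • g w) z := by
    rw [h1]
    simp only [smul_eq_mul]
    ring
  rw [h2]
  have h3 := EDC_bd κ hκ hpos 1 m hc hm (fun w => (1 : ℝ) • f w + (-1 : ℝ) • g w) (fun w => by
    simp only [smul_eq_mul]
    have := hfg w
    rwa [show 1 * f w + -1 * g w = f w - g w by ring]) z
  rwa [one_mul] at h3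

theorem EDC_lap (κ : ℝ → ℝ) (hκ : RK κ) (φ : ℍ → ℝ) (hφ : CD 2 φ) (hc : Continuous φ) :
    lap (conv κ φ) = conv κ (lap φ) := by
  funext z
  rw [(A_CVS ℝ κ φ hκ hc).2.2.2 z, A_COM ℝ κ φ hκ hφ z]

theorem EDC_zero (κ₁ : ℝ → ℝ) (η : ℝ) (z : ℍ) : lap (BB κ₁ η (fun _ => 0)) z = 0 := by
  have h1 : BB κ₁ η (fun _ => 0) = fun _ => 0 := by
    funext z
    unfold BB conv
    simp
  rw [h1]
  unfold lap onC
  simp

/-- partial sums of the iterates -/
noncomputable def EDC_S (P : (ℍ → ℝ) → (ℍ → ℝ)) (h : ℍ → ℝ) (J : ℕ) (z : ℍ) : ℝ :=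
  ∑ i ∈ Finset.range J, P^[i] h z

theorem EDC_PS (κ : ℝ → ℝ) (hκ : RK κ) (h : ℍ → ℝ)
    (hc : ∀ i, Continuous ((conv κ)^[i] h)) (J : ℕ) (z : ℍ) :
    conv κ (EDC_S (conv κ) h J) z = ∑ i ∈ Finset.range J, (conv κ)^[i + 1] h z := by
  induction J with
  | zero =>
    have : EDC_S (conv κ) h 0 = fun _ => 0 := by
      funext z
      simp [EDC_S]
    rw [this]
    unfold conv
    simp
  | succ J ih =>
    have h1 : EDC_S (conv κ) h (J + 1) =
        fun w => (1 : ℝ) • EDC_S (conv κ) h J w + (1 : ℝ) • (conv κ)^[J] h w := by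
      funext w
      unfold EDC_S
      rw [Finset.sum_range_succ, one_smul, one_smul]
    have hS : Continuous (EDC_S (conv κ) h J) := by
      unfold EDC_S
      exact continuous_finsetSum _ fun i _ => hc i
    rw [h1, (A_CVB ℝ).2.1 κ _ _ 1 1 z hκ hS (hc J), ih, Finset.sum_range_succ, one_smul, one_smul,
      Function.iterate_succ_apply']

theorem EDC_geom (θ a : ℝ) (hθ0 : 0 < θ) (hθ1 : θ < 1) (ha : 0 ≤ a) (J : ℕ) :
    ∑ i ∈ Finset.range J, a * θ ^ i ≤ a / (1 - θ) := by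
  rw [← Finset.mul_sum, geom_sum_eq hθ1.ne, div_eq_mul_inv a (1 - θ)]
  apply mul_le_mul_of_nonneg_left _ ha
  have h1 : 0 < 1 - θ := by linarith
  have e : (θ ^ J - 1) / (θ - 1) = (1 - θ ^ J) / (1 - θ) := by
    rw [← neg_div_neg_eq]; ring
  rw [e, inv_eq_one_div]
  gcongr
  have := pow_pos hθ0 J
  linarith

theorem EDC (hLIQ : LIQ_stmt) (hEDM : EDM_stmt) (hEMX : EMX_stmt) : EDC_stmt := by
  intro κ₁ C hBF Γ F hΓ hF
  obtain ⟨A2, hA2, hliq⟩ := hLIQ κ₁ C hBF Γ F hΓ hF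
  obtain ⟨m, hm1, hm⟩ := hEDM Γ F hΓ hF
  obtain ⟨A1, θ, hA1, hθ0, hθ1, hemx⟩ := hEMX κ₁ C hBF Γ F hΓ hF
  have hfam := hBF.fam
  have h1θ : 0 < 1 - θ := by linarith
  have hm0 : 0 < m := by linarith
  obtain ⟨Vs, hVs⟩ : ∃ Vs, Vs = Real.sqrt (volume F).toReal := ⟨_, rfl⟩
  have hVs0 : 0 ≤ Vs := by rw [hVs]; exact Real.sqrt_nonneg _
  obtain ⟨L, hL⟩ : ∃ L, L = 1 + A2 * Vs * (A1 * m) / (1 - θ) := ⟨_, rfl⟩
  have hL1 : 1 ≤ L := by
    rw [hL]
    have : 0 ≤ A2 * Vs * (A1 * m) / (1 - θ) := by positivity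
    linarith
  obtain ⟨G, hG⟩ : ∃ G, G = A1 * m / (1 - θ) := ⟨_, rfl⟩
  have hG0 : 0 ≤ G := by rw [hG]; positivity
  refine ⟨2 * m + G + 2 * L + 5, by linarith, ?_⟩
  intro h hh η hη0 hη1
  have hmh := hm h hh
  have hcont : Continuous h := hh.Inv.1
  rcases lt_or_ge (1 / 4) η with hη4 | hη4
  · refine ⟨fun _ => 0, ⟨continuous_const, fun _ _ => rfl⟩, fun z => ?_, fun z => ?_⟩
    · rw [abs_zero]; positivity
    · rw [EDC_zero, sub_zero]
      have h1 : 1 / 2 ≤ Real.sqrt η := by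
        apply Real.le_sqrt_of_sq_le
        norm_num
        linarith
      calc |h z| ≤ m := hmh z
        _ ≤ 2 * m * Real.sqrt η := by nlinarith
        _ ≤ (2 * m + G + 2 * L + 5) * Real.sqrt η := by
            apply mul_le_mul_of_nonneg_right _ (Real.sqrt_nonneg _)
            linarith
  -- the main case
  have hsη : 0 < Real.sqrt η := Real.sqrt_pos.2 hη0
  obtain ⟨P, hP⟩ : ∃ P : (ℍ → ℝ) → (ℍ → ℝ), P = conv (fm κ₁ 1) := ⟨_, rfl⟩
  obtain ⟨ψ, hψ, hψ0, hψL, hψm⟩ := hfam.psi 1 η hη0 hη1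
  have hrk1 : RK (fm κ₁ 1) := hfam.rk 1 one_pos
  have hrkη : RK (fm κ₁ η) := hfam.rk η hη0
  have hit : ∀ i, Inv Γ (P^[i] h) ∧ ∀ z, |P^[i] h z| ≤ A1 * θ ^ i * m := by
    intro i
    rw [hP]
    exact hemx h m hh.Inv hh.mean hmh i
  -- choice of J
  obtain ⟨J, hJ⟩ : ∃ J : ℕ, A1 * θ ^ J * m ≤ Real.sqrt η := by
    have h1 : Tendsto (fun J : ℕ => A1 * θ ^ J * m) atTop (𝓝 0) := by
      have h2 := (tendsto_pow_atTop_nhds_zero_of_lt_one hθ0.le hθ1).const_mul A1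
      have h3 := h2.mul_const m
      simpa using h3
    exact (((tendsto_order.1 h1).2 _ hsη).exists).imp fun J hJ => hJ.le
  obtain ⟨S, hS⟩ : ∃ S : ℍ → ℝ, S = EDC_S P h J := ⟨_, rfl⟩
  have hSInv : Inv Γ S := by
    rw [hS]
    refine ⟨?_, fun γ z => ?_⟩
    · unfold EDC_S
      exact continuous_finsetSum _ fun i _ => (hit i).1.1
    · unfold EDC_S
      exact Finset.sum_congr rfl fun i _ => (hit i).1.2 γ z
  have hSb : ∀ z, |S z| ≤ G := by
    intro z
    rw [hS]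
    unfold EDC_S
    calc |∑ i ∈ Finset.range J, P^[i] h z| ≤ ∑ i ∈ Finset.range J, |P^[i] h z| :=
          Finset.abs_sum_le_sum_abs _ _
      _ ≤ ∑ i ∈ Finset.range J, (A1 * m) * θ ^ i := by
          refine Finset.sum_le_sum fun i _ => ((hit i).2 z).trans (le_of_eq ?_)
          ring
      _ ≤ G := by
          rw [hG]
          exact EDC_geom θ (A1 * m) hθ0 hθ1 (by positivity) J
  have hPS : ∀ z, S z - conv (fm κ₁ 1) S z = h z - P^[J] h z := by
    intro z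
    have h1 := EDC_PS (fm κ₁ 1) hrk1 h (fun i => by
      have := (hit i).1.1
      rwa [hP] at this) J z
    rw [← hP, ← hS] at h1
    rw [← hP, h1, hS]
    unfold EDC_S
    have h2 := Finset.sum_range_succ (fun i => P^[i] h z) J
    have h3 := Finset.sum_range_succ' (fun i => P^[i] h z) J
    rw [Function.iterate_zero, id] at h3
    linarith
  -- Lipschitz bound for S
  have hlipS : ∀ z w, dist z w ≤ 1 → |S z - S w| ≤ L * dist z w := by
    intro z w hzw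
    have hd0 : 0 ≤ dist z w := dist_nonneg
    have hone : ∀ k : ℕ, |P^[k + 1] h z - P^[k + 1] h w| ≤ (A2 * Vs * (A1 * m) * dist z w) * θ ^ k := by
      intro k
      obtain ⟨u, hu⟩ : ∃ u : ℍ → ℝ, u = P^[k] h := ⟨_, rfl⟩
      have hub := (hit k).2
      have huI := (hit k).1
      rw [← hu] at hub huI
      have hsec : SecB (1 : Γ →* (ℂ ≃ₗᵢ[ℂ] ℂ)) (fun z => ((u z : ℝ) : ℂ)) := by
        refine ⟨?_, ⟨A1 * θ ^ k * m, fun z => ?_⟩, fun γ z => ?_⟩
        · exact (Complex.continuous_ofReal.comp huI.1).stronglyMeasurable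
        · rw [Complex.norm_real, Real.norm_eq_abs]
          exact hub z
        · rw [huI.2 γ z]
          rfl
      have h1 := hliq ℂ (1 : Γ →* (ℂ ≃ₗᵢ[ℂ] ℂ)) (fun z => ((u z : ℝ) : ℂ)) 1 z w one_pos le_rfl
        hsec hzw
      have hcv : ∀ z, conv (fm κ₁ 1) (fun z => ((u z : ℝ) : ℂ)) z =
          ((conv (fm κ₁ 1) u z : ℝ) : ℂ) := by
        intro z
        unfold conv
        rw [← integral_complex_ofReal]
        refine integral_congr_ae (Eventually.of_forall fun w => ?_)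
        simp
      rw [hcv, hcv, ← Complex.ofReal_sub, Complex.norm_real, Real.norm_eq_abs] at h1
      have h2 : P^[k + 1] h = conv (fm κ₁ 1) u := by
        rw [Function.iterate_succ_apply', ← hu, hP]
      rw [h2]
      refine h1.trans ?_
      have h3 : Real.sqrt (∫ z in F, ‖((u z : ℝ) : ℂ)‖ ^ 2) ≤ Vs * (A1 * θ ^ k * m) := by
        have hx : 0 ≤ A1 * θ ^ k * m := by positivity
        obtain ⟨-, -, -, hfin, -, -⟩ := A_DOB Γ F hΓ hF
        have h4 : (∫ z in F, ‖((u z : ℝ) : ℂ)‖ ^ 2) ≤ (volume F).toReal * (A1 * θ ^ k * m) ^ 2 := by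
          have h5 : ‖∫ z in F, ‖((u z : ℝ) : ℂ)‖ ^ 2‖ ≤ (A1 * θ ^ k * m) ^ 2 * (volume F).toReal := by
            refine norm_setIntegral_le_of_norm_le_const hfin fun w _ => ?_
            rw [norm_pow, norm_norm, Complex.norm_real, Real.norm_eq_abs]
            exact pow_le_pow_left₀ (abs_nonneg _) (hub w) 2
          rw [mul_comm]
          exact (Real.le_norm_self _).trans h5
        calc Real.sqrt (∫ z in F, ‖((u z : ℝ) : ℂ)‖ ^ 2) ≤
              Real.sqrt ((volume F).toReal * (A1 * θ ^ k * m) ^ 2) := Real.sqrt_le_sqrt h4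
          _ = Vs * (A1 * θ ^ k * m) := by
              rw [Real.sqrt_mul ENNReal.toReal_nonneg, Real.sqrt_sq hx, hVs]
      calc A2 / 1 ^ 2 * dist z w * Real.sqrt (∫ z in F, ‖((u z : ℝ) : ℂ)‖ ^ 2) ≤
            A2 / 1 ^ 2 * dist z w * (Vs * (A1 * θ ^ k * m)) :=
            mul_le_mul_of_nonneg_left h3 (by positivity)
        _ = (A2 * Vs * (A1 * m) * dist z w) * θ ^ k := by ring
    rw [hS]
    unfold EDC_S
    rcases Nat.eq_zero_or_pos J with hJ0 | hJ0
    · rw [hJ0]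
      simp only [Finset.range_zero, Finset.sum_empty, sub_self, abs_zero]
      positivity
    · obtain ⟨J', hJ'⟩ : ∃ J', J = J' + 1 := ⟨J - 1, by omega⟩
      rw [hJ', Finset.sum_range_succ', Finset.sum_range_succ', Function.iterate_zero, id]
      have h1 : (∑ k ∈ Finset.range J', P^[k + 1] h z + h z) -
          (∑ k ∈ Finset.range J', P^[k + 1] h w + h w) =
          (∑ k ∈ Finset.range J', (P^[k + 1] h z - P^[k + 1] h w)) + (h z - h w) := by
        rw [Finset.sum_sub_distrib]; ring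
      rw [h1]
      calc |(∑ k ∈ Finset.range J', (P^[k + 1] h z - P^[k + 1] h w)) + (h z - h w)| ≤
            |∑ k ∈ Finset.range J', (P^[k + 1] h z - P^[k + 1] h w)| + |h z - h w| := abs_add_le _ _
        _ ≤ (∑ k ∈ Finset.range J', |P^[k + 1] h z - P^[k + 1] h w|) + dist z w :=
            add_le_add (Finset.abs_sum_le_sum_abs _ _) (hh.lip z w)
        _ ≤ (∑ k ∈ Finset.range J', (A2 * Vs * (A1 * m) * dist z w) * θ ^ k) + dist z w := by
            gcongr with k _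
            exact hone k
        _ ≤ (A2 * Vs * (A1 * m) * dist z w) / (1 - θ) + dist z w := by
            gcongr
            exact EDC_geom θ _ hθ0 hθ1 (by positivity) J'
        _ = L * dist z w := by rw [hL]; ring
  -- distance of points in the support
  have hdist : ∀ z w : ℍ, tt z w < η → dist z w ≤ Real.sqrt (2 * η) := by
    intro z w hzw
    rw [A_TTT.1] at hzw
    have h1 := EDC_cosh (dist z w) dist_nonneg
    apply Real.le_sqrt_of_sq_le
    linarith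
  have hs1 : Real.sqrt (2 * η) ≤ 1 := by
    rw [Real.sqrt_le_one]
    linarith
  have hs2 : Real.sqrt (2 * η) ≤ 2 * Real.sqrt η := by
    rw [Real.sqrt_mul (by norm_num)]
    apply mul_le_mul_of_nonneg_right _ hsη.le
    rw [Real.sqrt_le_left (by norm_num)]
    norm_num
  have hBh : ∀ z, |conv (fm κ₁ η) h z - h z| ≤ Real.sqrt (2 * η) := by
    intro z
    have h1 := APX_aux A_CVB hfam (E := ℝ) hcont (ε := Real.sqrt (2 * η)) hη0 z (fun w hw => by
      rw [Real.norm_eq_abs, abs_sub_comm]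
      exact (hh.lip z w).trans (hdist z w hw))
    rwa [Real.norm_eq_abs] at h1
  have hBS : ∀ z, |conv (fm κ₁ η) S z - S z| ≤ L * Real.sqrt (2 * η) := by
    intro z
    have h1 := APX_aux A_CVB hfam (E := ℝ) hSInv.1 (ε := L * Real.sqrt (2 * η)) hη0 z
      (fun w hw => by
        rw [Real.norm_eq_abs, abs_sub_comm]
        have h2 := hdist z w hw
        exact (hlipS z w (h2.trans hs1)).trans (mul_le_mul_of_nonneg_left h2 (by linarith)))
    rwa [Real.norm_eq_abs] at h1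
  -- the solution
  obtain ⟨g, hg⟩ : ∃ g : ℍ → ℝ, g = conv ψ S := ⟨_, rfl⟩
  have hgInv : Inv Γ g := by
    rw [hg]
    exact (A_CVB ℝ).2.2.2.2.2.2.2 Γ ψ S hψ hSInv
  have hgCD : CD 2 g := by
    rw [hg]
    exact (A_CVS ℝ ψ S hψ hSInv.1).1
  obtain ⟨u, hu⟩ : ∃ u : ℍ → ℝ, u = fun z => conv (fm κ₁ η) S z - conv (fm κ₁ 1) S z := ⟨_, rfl⟩
  have hlg : lap g = u := by
    funext z
    rw [hg, (A_CVS ℝ ψ S hψ hSInv.1).2.2.2 z,
      (A_CVB ℝ).2.2.2.1 (LL ψ) (fun t => 1 * fm κ₁ η t + (-1) * fm κ₁ 1 t) S z (fun t ht => by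
        rw [hψL t ht]; ring),
      (A_CVB ℝ).2.2.1 (fm κ₁ η) (fm κ₁ 1) S 1 (-1) z hrkη hrk1 hSInv.1, hu]
    simp only [smul_eq_mul]
    ring
  have huc : Continuous u := by
    rw [hu]
    exact ((A_CVB ℝ).2.2.2.2.2.1 _ S hrkη hSInv.1).sub ((A_CVB ℝ).2.2.2.2.2.1 _ S hrk1 hSInv.1)
  have hlapBB : lap (BB κ₁ η g) = conv (fm κ₁ η) (conv (fm κ₁ η) u) := by
    unfold BB
    rw [EDC_lap (fm κ₁ η) hrkη _ (A_CVS ℝ _ g hrkη hgInv.1).1
      ((A_CVB ℝ).2.2.2.2.2.1 _ g hrkη hgInv.1), EDC_lap (fm κ₁ η) hrkη g hgCD hgInv.1, hlg]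
  have hη' : ∀ z : ℍ, ∫ w : ℍ, fm κ₁ η (tt z w) ≤ 1 := fun z => (hfam.mass η hη0 z).le
  have hpos' : ∀ t, 0 ≤ t → 0 ≤ fm κ₁ η t := fun t _ => hfam.nonneg η hη0 t
  have hBc : ∀ f : ℍ → ℝ, Continuous f → Continuous (conv (fm κ₁ η) f) := fun f hf =>
    (A_CVB ℝ).2.2.2.2.2.1 _ f hrkη hf
  refine ⟨g, hgInv, fun z => ?_, fun z => ?_⟩
  · have h1 := EDC_bd ψ hψ hψ0 (1 / 2) G hψm hG0 S hSb z
    rw [← hg] at h1
    linarith
  · rw [hlapBB]
    have e1 : |h z - conv (fm κ₁ η) h z| ≤ Real.sqrt (2 * η) := by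
      rw [abs_sub_comm]; exact hBh z
    have e2 : |conv (fm κ₁ η) h z - conv (fm κ₁ η) (conv (fm κ₁ η) h) z| ≤ Real.sqrt (2 * η) :=
      EDC_diff _ hrkη hpos' hη' _ (Real.sqrt_nonneg _) h _ hcont (hBc h hcont)
        (fun w => by rw [abs_sub_comm]; exact hBh w) z
    have e3 : ∀ w, |h w - u w| ≤ L * Real.sqrt (2 * η) + Real.sqrt η := by
      intro w
      have h1 := hPS w
      have h2 : h w - u w = -(conv (fm κ₁ η) S w - S w) + P^[J] h w := by
        rw [hu]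
        simp only
        linarith
      rw [h2]
      refine (abs_add_le _ _).trans (add_le_add ?_ (((hit J).2 w).trans hJ))
      rw [abs_neg]
      exact hBS w
    have hm' : 0 ≤ L * Real.sqrt (2 * η) + Real.sqrt η := by positivity
    have e4 : |conv (fm κ₁ η) (conv (fm κ₁ η) h) z - conv (fm κ₁ η) (conv (fm κ₁ η) u) z| ≤
        L * Real.sqrt (2 * η) + Real.sqrt η :=
      EDC_diff _ hrkη hpos' hη' _ hm' _ _ (hBc h hcont) (hBc u huc)
        (fun w => EDC_diff _ hrkη hpos' hη' _ hm' _ _ hcont huc e3 w) z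
    calc |h z - conv (fm κ₁ η) (conv (fm κ₁ η) u) z| ≤
          |h z - conv (fm κ₁ η) h z| +
          |conv (fm κ₁ η) h z - conv (fm κ₁ η) (conv (fm κ₁ η) h) z| +
          |conv (fm κ₁ η) (conv (fm κ₁ η) h) z - conv (fm κ₁ η) (conv (fm κ₁ η) u) z| := by
          have := abs_add_le (h z - conv (fm κ₁ η) h z)
            (conv (fm κ₁ η) h z - conv (fm κ₁ η) (conv (fm κ₁ η) h) z)
          have h2 := abs_add_le (h z - conv (fm κ₁ η) (conv (fm κ₁ η) h) z)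
            (conv (fm κ₁ η) (conv (fm κ₁ η) h) z - conv (fm κ₁ η) (conv (fm κ₁ η) u) z)
          rw [sub_add_sub_cancel] at this h2
          linarith
      _ ≤ Real.sqrt (2 * η) + Real.sqrt (2 * η) + (L * Real.sqrt (2 * η) + Real.sqrt η) :=
          add_le_add (add_le_add e1 e2) e4
      _ ≤ (2 * L + 5) * Real.sqrt η := by nlinarith
      _ ≤ (2 * m + G + 2 * L + 5) * Real.sqrt η := by
          apply mul_le_mul_of_nonneg_right _ hsη.le
          linarith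

end Pool.Agent.QX
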