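import Pool.Agent.helper4.QX.SpecF

/-! Row qf:EDM (MP_07c750_an): Lipschitz functions with mean zero are bounded -/

set_option autoImplicit false

open scoped MatrixGroups ContDiff Topology UpperHalfPlane
open UpperHalfPlane MeasureTheory ProbabilityTheory Filter Set Polynomial
open Pool.Agent.QU Pool.Agent.RP

namespace Pool.Agent.QX

theorem EDM : EDM_stmt := by
  intro Γ F hΓ hF
  obtain ⟨-, -, hpos, hfin, -, -⟩ := A_DOB Γ F hΓ hF
  obtain ⟨K, hK, hFK⟩ := hF.rel
  have hD : ∀ z ∈ F, ∀ w ∈ F, dist z w ≤ Metric.diam K := fun z hz w hw =>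
    Metric.dist_le_diam_of_mem hK.isBounded (hFK hz) (hFK hw)
  refine ⟨max 1 (Metric.diam K), le_max_left _ _, fun h hh z => ?_⟩
  have hcont : Continuous h := hh.Inv.1
  have key : ∀ z ∈ F, |h z| ≤ Metric.diam K := by
    intro z hz
    have hint : IntegrableOn h F := by
      refine Measure.integrableOn_of_bounded (M := |h z| + Metric.diam K) hfin.ne
        hcont.aestronglyMeasurable ?_
      filter_upwards [ae_restrict_mem hF.meas] with w hw
      rw [Real.norm_eq_abs]
      have h1 := hh.lip w z
      have h2 := hD w hw z hz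
      have h3 : |h w| ≤ |h w - h z| + |h z| := by
        have := abs_add_le (h w - h z) (h z)
        simpa using this
      linarith
    have hconst : Integrable (fun _ : ℍ => h z) (volume.restrict F) :=
      integrableOn_const hfin.ne (by simp)
    have h1 : ∫ w in F, (h z - h w) = (volume F).toReal * h z := by
      rw [integral_sub hconst hint, hh.mean, sub_zero,
        setIntegral_const, smul_eq_mul]
      rfl
    have h2 : ‖∫ w in F, (h z - h w)‖ ≤ Metric.diam K * (volume F).toReal := by
      refine norm_setIntegral_le_of_norm_le_const hfin fun w hw => ?_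
      rw [Real.norm_eq_abs]
      exact (hh.lip z w).trans (hD z hz w hw)
    have h3 : 0 < (volume F).toReal := ENNReal.toReal_pos hpos.ne' hfin.ne
    rw [h1, Real.norm_eq_abs, abs_mul, abs_of_pos h3, mul_comm] at h2
    exact le_of_mul_le_mul_right h2 h3
  obtain ⟨γ, hγ, -⟩ := hF.uniq z
  rw [← hh.inv γ z]
  exact (key _ hγ).trans (le_max_right _ _)

end Pool.Agent.QX
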